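import Pool.Agent.H.MP_1c82e3_an.Defs

namespace Pool.Agent.H.MP_ed087a_al

open Filter Topology Set Pool.Agent.H.MP_1c82e3_an
open scoped ContDiff

lemma ck_congr {E F : Type} [AddCommGroup F] [Module ℝ F] [TopologicalSpace F]
    [AddCommGroup E] [Module ℝ E] [TopologicalSpace E] [IsTopologicalAddGroup E]
    [ContinuousSMul ℝ E] {f g : E → F} {U : Set E} (hU : IsOpen U) (h : EqOn f g U) (k : ℕ)
    (hf : IsCk F k E f U) : IsCk F k E g U := by
  cases k with
  | zero => exact ContinuousOn.congr hf h.symm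
  | succ k =>
    obtain ⟨h0, df, h1, h2⟩ := hf
    refine ⟨h0.congr h.symm, df, fun x hx v => (h1 x hx v).congr' ?_, h2⟩
    have hc : Tendsto (fun t : ℝ => x + t • v) (𝓝 0) (𝓝 x) := by
      have : Continuous fun t : ℝ => x + t • v := by fun_prop
      simpa using this.tendsto 0
    filter_upwards [mem_nhdsWithin_of_mem_nhds (hc (hU.mem_nhds hx))] with t ht
    rw [h ht, h hx]

lemma ck_of_contDiffOn {F : Type} [NormedAddCommGroup F] [NormedSpace ℝ F] (k : ℕ) :
    ∀ {E : Type} [NormedAddCommGroup E] [NormedSpace ℝ E] {f : E → F} {U : Set E}, IsOpen U →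
      ContDiffOn ℝ ∞ f U → IsCk F k E f U := by
  induction k with
  | zero => intro E _ _ f U _ h; exact h.continuousOn
  | succ k ih =>
    intro E _ _ f U hU h
    refine ⟨h.continuousOn, fun p => fderiv ℝ f p.1 p.2, fun x hx v => ?_,
      ih (hU.prod isOpen_univ) ?_⟩
    · have hd : HasFDerivAt f (fderiv ℝ f x) x :=
        ((h.differentiableOn (by simp) x hx).differentiableAt (hU.mem_nhds hx)).hasFDerivAt
      exact (hd.hasLineDerivAt v).tendsto_slope_zero
    · have h1 : ContDiffOn ℝ ∞ (fderiv ℝ f) U := h.fderiv_of_isOpen hU (by simp)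
      exact (h1.comp contDiffOn_fst fun p hp => hp.1).clm_apply contDiffOn_snd

/-- `(a + b s) e^{t s}` are linearly independent on `(0,1)` -/
def Zs (T : Finset ℝ) (a b : ℝ → ℝ) : Prop :=
  ∀ s ∈ Ioo (0 : ℝ) 1, ∑ t ∈ T, (a t + b t * s) * Real.exp (t * s) = 0

lemma Zs.step {T : Finset ℝ} {a b : ℝ → ℝ} (h : Zs T a b) (c : ℝ) :
    Zs T (fun t => (t - c) * a t + b t) (fun t => (t - c) * b t) := by
  intro s hs
  have hd : HasDerivAt (fun s => ∑ t ∈ T, (a t + b t * s) * Real.exp (t * s))
      (∑ t ∈ T, (b t * Real.exp (t * s) + (a t + b t * s) * (Real.exp (t * s) * t))) s := by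
    refine HasDerivAt.fun_sum fun t _ => ?_
    have h1 : HasDerivAt (fun s => a t + b t * s) (b t) s := by
      simpa using ((hasDerivAt_id s).const_mul (b t)).const_add (a t)
    have h2 : HasDerivAt (fun s => Real.exp (t * s)) (Real.exp (t * s) * t) s := by
      simpa using ((hasDerivAt_id s).const_mul t).exp
    exact h1.mul h2
  have h0 : HasDerivAt (fun s => ∑ t ∈ T, (a t + b t * s) * Real.exp (t * s)) 0 s := by
    refine (hasDerivAt_const s (0 : ℝ)).congr_of_eventuallyEq ?_
    filter_upwards [Ioo_mem_nhds hs.1 hs.2] with r hr using h r hr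
  have h3 := hd.unique h0
  have h4 := h s hs
  have : ∑ t ∈ T, ((t - c) * a t + b t + (t - c) * b t * s) * Real.exp (t * s) =
      ∑ t ∈ T, (b t * Real.exp (t * s) + (a t + b t * s) * (Real.exp (t * s) * t)) -
        c * ∑ t ∈ T, (a t + b t * s) * Real.exp (t * s) := by
    rw [Finset.mul_sum, ← Finset.sum_sub_distrib]
    exact Finset.sum_congr rfl fun t _ => by ring
  rw [this, h3, h4]; simp

lemma Zs.zero (T : Finset ℝ) : ∀ a b : ℝ → ℝ, Zs T a b → ∀ t ∈ T, a t = 0 ∧ b t = 0 := by
  induction T using Finset.induction_on with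
  | empty => simp
  | insert c T hc ih =>
    intro a b h
    have h2 := (h.step c).step c
    have h3 : Zs T (fun t => (t - c) * ((t - c) * a t + b t) + (t - c) * b t)
        (fun t => (t - c) * ((t - c) * b t)) := by
      intro s hs
      have := h2 s hs
      rw [Finset.sum_insert hc] at this
      simpa using this
    have h4 : ∀ t ∈ T, a t = 0 ∧ b t = 0 := by
      intro t ht
      have hne : t - c ≠ 0 := sub_ne_zero.2 fun e => hc (e ▸ ht)
      obtain ⟨k1, k2⟩ := ih _ _ h3 t ht
      have hb : b t = 0 := by simpa [hne] using k2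
      exact ⟨by simpa [hne, hb] using k1, hb⟩
    have h5 : ∀ s ∈ Ioo (0 : ℝ) 1, a c + b c * s = 0 := by
      intro s hs
      have := h s hs
      rw [Finset.sum_insert hc, Finset.sum_eq_zero fun t ht => by simp [h4 t ht]] at this
      simpa using this
    have k1 := h5 (1 / 2) (by norm_num)
    have k2 := h5 (1 / 3) (by norm_num)
    intro t ht
    rcases Finset.mem_insert.1 ht with rfl | ht
    · constructor <;> linarith
    · exact h4 t ht

abbrev CI := C(Icc (0 : ℝ) 1, ℝ)

noncomputable def xx : CI := ⟨fun s => s.1, continuous_subtype_val⟩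

noncomputable def ee (t : ℝ) : CI := ⟨fun s => Real.exp (t * s.1), by fun_prop⟩

lemma ee_add (s t : ℝ) : ee (s + t) = ee s * ee t := by
  ext r; simp [ee, add_mul, Real.exp_add]

lemma ee_zero : ee 0 = 1 := by ext r; simp [ee]

def PP : Submodule ℝ CI := Submodule.span ℝ (range ee)

lemma PP_ee (t : ℝ) : ee t ∈ PP := Submodule.subset_span ⟨t, rfl⟩

lemma PP_mul {p q : CI} (hp : p ∈ PP) (hq : q ∈ PP) : p * q ∈ PP := by
  induction hp using Submodule.span_induction with
  | mem x hx =>
    induction hq using Submodule.span_induction with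
    | mem y hy =>
      obtain ⟨s, rfl⟩ := hx
      obtain ⟨t, rfl⟩ := hy
      rw [← ee_add]; exact PP_ee _
    | zero => simp
    | add y z _ _ h1 h2 => rw [mul_add]; exact PP.add_mem h1 h2
    | smul c y _ h => rw [mul_smul_comm]; exact PP.smul_mem c h
  | zero => simp
  | add y z _ _ h1 h2 => rw [add_mul]; exact PP.add_mem h1 h2
  | smul c y _ h => rw [smul_mul_assoc]; exact PP.smul_mem c h

/-- quotients of exponential sums without poles on `[0,1]` -/
def AA : Subalgebra ℝ CI where
  carrier := {f | ∃ p ∈ PP, ∃ q ∈ PP, IsUnit q ∧ f * q = p}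
  mul_mem' := by
    rintro f g ⟨p, hp, q, hq, hu, h⟩ ⟨p', hp', q', hq', hu', h'⟩
    exact ⟨p * p', PP_mul hp hp', q * q', PP_mul hq hq', hu.mul hu', by rw [← h, ← h']; ring⟩
  add_mem' := by
    rintro f g ⟨p, hp, q, hq, hu, h⟩ ⟨p', hp', q', hq', hu', h'⟩
    exact ⟨p * q' + p' * q, PP.add_mem (PP_mul hp hq') (PP_mul hp' hq), q * q', PP_mul hq hq',
      hu.mul hu', by rw [← h, ← h']; ring⟩
  algebraMap_mem' := fun r =>
    ⟨r • ee 0, PP.smul_mem r (PP_ee 0), ee 0, PP_ee 0, by rw [ee_zero]; exact isUnit_one,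
      by rw [Algebra.smul_def]⟩

lemma AA_inv {f g : CI} (hf : f ∈ AA) (h : f * g = 1) : g ∈ AA := by
  obtain ⟨p, hp, q, hq, hu, h'⟩ := hf
  refine ⟨q, hq, p, hp, ?_, ?_⟩
  · rw [← h']; exact (IsUnit.of_mul_eq_one g h).mul hu
  · rw [← h', ← mul_assoc, mul_comm g f, h, one_mul]

lemma xx_not : xx ∉ AA := by
  rintro ⟨p, hp, q, hq, hu, h⟩
  obtain ⟨c, rfl⟩ := Finsupp.mem_span_range_iff_exists_finsupp.1 hp
  obtain ⟨d, rfl⟩ := Finsupp.mem_span_range_iff_exists_finsupp.1 hq
  rw [Finsupp.sum_of_support_subset c (s := c.support ∪ d.support) Finset.subset_union_left _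
      (by simp),
    Finsupp.sum_of_support_subset d (s := c.support ∪ d.support) Finset.subset_union_right _
      (by simp)] at h
  have hz : Zs (c.support ∪ d.support) (fun t => -c t) d := by
    intro s hs
    have := congrArg (fun f : CI => f ⟨s, Ioo_subset_Icc_self hs⟩) h
    simp only [ContinuousMap.mul_apply, ContinuousMap.coe_sum, Finset.sum_apply,
      ContinuousMap.smul_apply, smul_eq_mul, xx, ee, ContinuousMap.coe_mk] at this
    rw [← sub_eq_zero, Finset.mul_sum, ← Finset.sum_sub_distrib] at this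
    rw [← this]
    exact Finset.sum_congr rfl fun t _ => by ring
  have hd : d = 0 := by
    ext t
    by_contra ht
    exact ht (Zs.zero _ _ _ hz t (Finset.mem_union_right _ (Finsupp.mem_support_iff.2 ht))).2
  rw [hd] at hu
  simp at hu

instance : HasSummableGeomSeries AA where
  summable_geometric_of_norm_lt_one := fun ξ hξ => by
    have hs : Summable fun n => (ξ : CI) ^ n := summable_geometric_of_norm_lt_one hξ
    have hm : (∑' n, (ξ : CI) ^ n) ∈ AA :=
      AA_inv (AA.sub_mem AA.one_mem ξ.2) hs.one_sub_mul_tsum_pow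
    refine ⟨⟨_, hm⟩, ?_⟩
    rw [← IsInducing.subtypeVal.hasSum_iff (g := AA.val)]
    simpa [Function.comp_def] using hs.hasSum

end Pool.Agent.H.MP_ed087a_al
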