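import Pool.Agent.H.MP_ed087a_al.A

namespace Pool.Agent.H.MP_ed087a_al

open Filter Topology Set Pool.Agent.H.MP_1c82e3_an
open scoped ContDiff

lemma lcs_normed (E : Type) [NormedAddCommGroup E] [NormedSpace ℝ E] : IsLCS E :=
  ⟨inferInstance, inferInstance, inferInstance, inferInstance⟩

lemma op_all {X : Type} [TopologicalSpace X] {S : Set X} (h : ∀ x, x ∈ S) : IsOpen S :=
  eq_univ_of_forall h ▸ isOpen_univ

noncomputable instance csR : ChartedSpace ℝ (Multiplicative ℝ) := chartedSpaceSelf ℝ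

lemma lie_R : IsLie ℝ (Multiplicative ℝ) := by
  refine ⟨lcs_normed ℝ, inferInstanceAs (T2Space ℝ), ⟨continuousOn_id, ?_⟩,
    ⟨continuous_inv.continuousOn, ?_⟩, continuous_mul, ?_⟩
  · rintro e rfl e' rfl k
    refine ck_of_contDiffOn k (op_all fun _ => ⟨trivial, trivial, trivial⟩) ?_
    exact contDiff_id.contDiffOn
  · rintro e rfl e' rfl k
    refine ck_of_contDiffOn k (op_all fun _ => ⟨trivial, trivial, trivial⟩) ?_
    exact contDiff_neg.contDiffOn
  · rintro e rfl e' rfl e'' rfl k
    refine ck_of_contDiffOn k (op_all fun _ => ⟨trivial, trivial, trivial⟩) ?_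
    exact contDiff_add.contDiffOn

section
variable (R : Type) [NormedRing R] [NormedAlgebra ℝ R] [HasSummableGeomSeries R]

noncomputable def ch : OpenPartialHomeomorph Rˣ R :=
  (Units.isOpenEmbedding_val (R := R)).toOpenPartialHomeomorph _

lemma ch_source : (ch R).source = univ := rfl
lemma ch_apply (u : Rˣ) : ch R u = u := rfl
lemma ch_symm {a : R} (ha : a ∈ (ch R).target) : (((ch R).symm a : Rˣ) : R) = a :=
  (ch R).right_inv ha

noncomputable instance csU : ChartedSpace R Rˣ := (ch R).singletonChartedSpace (ch_source R)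

lemma lie_units : IsLie R Rˣ := by
  have ho := (ch R).open_target
  refine ⟨lcs_normed R, inferInstance, ⟨continuousOn_id, ?_⟩,
    ⟨continuous_inv.continuousOn, ?_⟩, continuous_mul, ?_⟩
  · rintro e rfl e' rfl k
    have : {a | a ∈ (ch R).target ∧ (ch R).symm a ∈ univ ∧ id ((ch R).symm a) ∈ (ch R).source} =
      (ch R).target := by ext; simp [ch_source]
    rw [this]
    exact ck_congr ho (fun a ha => (ch_symm R ha).symm) k
      (ck_of_contDiffOn k ho contDiff_id.contDiffOn)
  · rintro e rfl e' rfl k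
    have : {a | a ∈ (ch R).target ∧ (ch R).symm a ∈ univ ∧ ((ch R).symm a)⁻¹ ∈ (ch R).source} =
      (ch R).target := by ext; simp [ch_source]
    rw [this]
    refine ck_congr (f := Ring.inverse) ho (fun a ha => ?_) k (ck_of_contDiffOn k ho fun a ha => ?_)
    · rw [ch_apply, ← Ring.inverse_unit, ch_symm R ha]
    · rw [← ch_symm R ha]
      exact (contDiffAt_ringInverse ℝ _).contDiffWithinAt
  · rintro e rfl e' rfl e'' rfl k
    have : {p : R × R | p.1 ∈ (ch R).target ∧ p.2 ∈ (ch R).target ∧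
        (ch R).symm p.1 * (ch R).symm p.2 ∈ (ch R).source} = (ch R).target ×ˢ (ch R).target := by
      ext; simp [ch_source]
    rw [this]
    refine ck_congr (f := fun p => p.1 * p.2) (ho.prod ho) (fun a ha => ?_) k
      (ck_of_contDiffOn k (ho.prod ho) contDiff_mul.contDiffOn)
    simp only [ch_apply, Units.val_mul, ch_symm R ha.1, ch_symm R ha.2]

end

lemma ee_mem (t : ℝ) : ee t ∈ AA :=
  ⟨ee t, PP_ee t, ee 0, PP_ee 0, by rw [ee_zero]; exact isUnit_one, by rw [ee_zero, mul_one]⟩

noncomputable def eA (t : ℝ) : AA := ⟨ee t, ee_mem t⟩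

lemma eA_add (s t : ℝ) : eA (s + t) = eA s * eA t := Subtype.ext (ee_add s t)
lemma eA_zero : eA 0 = 1 := Subtype.ext ee_zero

lemma eA_cont : Continuous eA := by
  refine Continuous.subtype_mk ?_ _
  refine ContinuousMap.continuous_of_continuous_uncurry _ ?_
  change Continuous fun p : ℝ × Icc (0 : ℝ) 1 => Real.exp (p.1 * p.2.1)
  fun_prop

noncomputable def al : Multiplicative ℝ →* AAˣ where
  toFun t := ⟨eA t.toAdd, eA (-t.toAdd), by rw [← eA_add, add_neg_cancel, eA_zero],
    by rw [← eA_add, neg_add_cancel, eA_zero]⟩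
  map_one' := Units.ext eA_zero
  map_mul' s t := Units.ext (eA_add _ _)

lemma al_cont : Continuous al :=
  (Units.isOpenEmbedding_val (R := AA)).isInducing.continuous_iff.2 eA_cont

noncomputable instance csA : ChartedSpace AA AAˣ := csU AA

lemma al_not : ¬ SmoothOn ℝ AA al univ := by
  rintro ⟨-, h⟩
  obtain ⟨-, df, h1, -⟩ := h (OpenPartialHomeomorph.refl ℝ) rfl (ch AA) rfl 1
  have h2 : Tendsto (fun t : ℝ => t⁻¹ • (eA (0 + t • 1) - eA 0)) (𝓝[≠] 0) (𝓝 (df (0, 1))) :=
    h1 0 ⟨trivial, trivial, trivial⟩ 1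
  refine xx_not ?_
  have : xx = (df (0, 1) : CI) := by
    ext s
    have hc : Continuous fun f : AA => (f : CI) s :=
      (continuous_eval_const s).comp continuous_subtype_val
    have h3 := (hc.tendsto _).comp h2
    have h4 : HasDerivAt (fun t : ℝ => Real.exp (t * s.1)) s.1 0 := by
      simpa using ((hasDerivAt_id (0 : ℝ)).mul_const s.1).exp
    refine tendsto_nhds_unique h4.tendsto_slope_zero (h3.congr fun t => ?_)
    simp [eA, ee]
  rw [this]
  exact (df (0, 1)).2

end Pool.Agent.H.MP_ed087a_al
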